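import Mathlib
import Pool.Agent.V11176.SemExist

/-!
# MP_c3854d_co: a Schubert polynomial whose expansion in standard elementary monomials is
nonnegative is a single standard elementary monomial

The variable `x_{k+1}` of the problem is `X k`; permutations of `{1, …, n}` are permutations of
`Fin n`, and `s_{i+1}` is the adjacent transposition of the positions `i` and `i + 1`.
-/

namespace Pool.Agent.Results.MP_c3854d_co.SemPositive

open MvPolynomial

/-- `e^i_j`: the elementary symmetric polynomial of degree `j` in the first `i` variables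
`X 0, …, X (i - 1)`. -/
noncomputable def elem (i j : ℕ) : MvPolynomial ℕ ℤ :=
  ∑ t ∈ (Finset.range i).powersetCard j, ∏ k ∈ t, X k

/-- The standard elementary monomial `e_a = e^1_{a_1} e^2_{a_2} e^3_{a_3} ⋯` of a finitely
supported sequence `a` (used for sequences with `a_i ≤ i` for all `i`, so that `a_0 = 0`). -/
noncomputable def sem (a : ℕ →₀ ℕ) : MvPolynomial ℕ ℤ := a.prod fun i j => elem i j

/-- The length of a permutation: its number of inversions. -/
def len {n : ℕ} (w : Equiv.Perm (Fin n)) : ℕ :=
  (Finset.univ.filter fun p : Fin n × Fin n => p.1 < p.2 ∧ w p.2 < w p.1).card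

/-- The adjacent transposition exchanging `i` and `i + 1`. -/
def adj {n : ℕ} (i : ℕ) (hi : i + 1 < n) : Equiv.Perm (Fin n) :=
  Equiv.swap ⟨i, Nat.lt_of_succ_lt hi⟩ ⟨i + 1, hi⟩

/-- The defining recursion of the Schubert polynomials of `S_n`: the longest element
`w_0 = Fin.revPerm` has `𝔖_{w_0} = x_1^{n-1} x_2^{n-2} ⋯ x_{n-1}`, and `𝔖_{w s} = ∂ 𝔖_w` whenever
`ℓ(w s) = ℓ(w) - 1`, where `s` exchanges the positions `i` and `i + 1` and
`∂ f = (f - s f) / (X i - X (i + 1))`. -/
structure IsSchubertFamily (n : ℕ) (S : Equiv.Perm (Fin n) → MvPolynomial ℕ ℤ) : Prop where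
  top : S Fin.revPerm = ∏ i ∈ Finset.range n, X i ^ (n - 1 - i)
  step : ∀ (w : Equiv.Perm (Fin n)) (i : ℕ) (hi : i + 1 < n),
    len (w * adj i hi) + 1 = len w →
      (X i - X (i + 1)) * S (w * adj i hi) = S w - rename (Equiv.swap i (i + 1)) (S w)

/-- There is exactly one family satisfying the defining recursion (classical). -/
theorem existsUnique_family (n : ℕ) :
    ∃! S : Equiv.Perm (Fin n) → MvPolynomial ℕ ℤ, IsSchubertFamily n S := by
  refine ⟨V11176.Sem.schub n, ?_, ?_⟩
  · exact ⟨(V11176.Sem.schub_isSchubert n).top, (V11176.Sem.schub_isSchubert n).step⟩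
  · intro T hT
    exact V11176.Sem.isSchubert_unique n T _ ⟨hT.top, hT.step⟩ (V11176.Sem.schub_isSchubert n)

/-- The Schubert polynomials `𝔖_w`, `w ∈ S_n`: the unique family satisfying the defining
recursion. -/
noncomputable def schubert (n : ℕ) : Equiv.Perm (Fin n) → MvPolynomial ℕ ℤ :=
  (existsUnique_family n).choose

/-- **SEM-positive Schubert polynomials are single SEMs.** If the expansion of `𝔖_w` in standard
elementary monomials (with integer coefficients `c_a`) has only nonnegative coefficients, then
`𝔖_w` is a single standard elementary monomial, and the expansion has this one term only. -/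
theorem result (n : ℕ) (w : Equiv.Perm (Fin n)) (c : (ℕ →₀ ℕ) →₀ ℤ)
    (hc : ∀ a ∈ c.support, ∀ i, a i ≤ i)
    (hexp : schubert n w = c.sum fun a k => C k * sem a)
    (hpos : ∀ a, 0 ≤ c a) :
    ∃ a : ℕ →₀ ℕ, (∀ i, a i ≤ i) ∧ schubert n w = sem a ∧ c = Finsupp.single a 1 := by
  have h1 : IsSchubertFamily n (schubert n) := (existsUnique_family n).choose_spec.1
  have h2 : V11176.Sem.IsSchubert n (schubert n) := ⟨h1.top, h1.step⟩
  exact V11176.Sem.main h2 w c hc hexp hpos

end Pool.Agent.Results.MP_c3854d_co.SemPositive
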